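import Mathlib

set_option autoImplicit false

/-!
A symmetric relation on a finite set in which every closed pair has a midpoint and every induced path
`a - b - c - d` with loops exactly at `b` and `c` has a splitting point has no induced path on four
points (MP_a46c6f_co, target (C); helpers 68, 65, 28, 44, 75, 32).
-/

open Classical

namespace Pool.Agent.H32.P3

section
variable {V : Type}

/-- `a - b - c - d` is an induced path -/
def P4 (A : V → V → Prop) (a b c d : V) : Prop :=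
  A a b ∧ A b c ∧ A c d ∧ ¬ A a c ∧ ¬ A a d ∧ ¬ A b d

/-- `g` is a midpoint of the closed pair `u, v` -/
def Mid (A : V → V → Prop) (u v g : V) : Prop :=
  (A g g ↔ ¬ A u u) ∧ (A g u ↔ ¬ A u u) ∧ (A g v ↔ ¬ A u u) ∧
    ∀ y, (A u y ↔ A v y) → (A g y ↔ A u y)

/-- every closed pair of `D` has a midpoint in `D` -/
def Pr (A : V → V → Prop) (D : Finset V) : Prop :=
  ∀ u ∈ D, ∀ v ∈ D, (A u u ↔ A v v) → (A u v ↔ ¬ A u u) → ∃ g ∈ D, Mid A u v g

/-- the complement -/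
def co (A : V → V → Prop) : V → V → Prop := fun x y => ¬ A x y

theorem co_co (A : V → V → Prop) : co (co A) = A := by
  funext x y
  simp [co]

theorem Mid.compl {A : V → V → Prop} {u v g : V} (h : Mid A u v g) : Mid (co A) u v g := by
  obtain ⟨m1, m2, m3, m4⟩ := h
  refine ⟨?_, ?_, ?_, ?_⟩
  · simp only [co]; tauto
  · simp only [co]; tauto
  · simp only [co]; tauto
  · intro y hy
    simp only [co] at hy ⊢
    have := m4 y (by tauto)
    tauto

theorem Pr.compl {A : V → V → Prop} {D : Finset V} (h : Pr A D) : Pr (co A) D := by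
  intro u hu v hv h1 h2
  simp only [co] at h1 h2
  obtain ⟨g, hg, hm⟩ := h u hu v hv (by tauto) (by tauto)
  exact ⟨g, hg, hm.compl⟩

theorem Pr.filt {A : V → V → Prop} {D : Finset V} (h : Pr A D) (y : V) :
    Pr A (D.filter fun x => A x y) := by
  intro u hu v hv h1 h2
  rw [Finset.mem_filter] at hu hv
  obtain ⟨g, hg, hm⟩ := h u hu.1 v hv.1 h1 h2
  refine ⟨g, ?_, hm⟩
  rw [Finset.mem_filter]
  refine ⟨hg, ?_⟩
  have := hm.2.2.2 y ⟨fun _ => hv.2, fun _ => hu.2⟩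
  exact this.2 hu.2

theorem Pr.filtn {A : V → V → Prop} {D : Finset V} (h : Pr A D) (y : V) :
    Pr A (D.filter fun x => ¬ A x y) := by
  have h1 := (h.compl.filt y).compl
  rw [co_co] at h1
  have e : (D.filter fun x => ¬ A x y) = D.filter fun x => co A x y := by
    ext x
    simp only [Finset.mem_filter, co]
  rw [e]
  exact h1

theorem P4.rev {A : V → V → Prop} (sym : ∀ x y, A x y → A y x) {a b c d : V} (h : P4 A a b c d) :
    P4 A d c b a :=
  ⟨sym _ _ h.2.2.1, sym _ _ h.2.1, sym _ _ h.1, fun e => h.2.2.2.2.2 (sym _ _ e),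
    fun e => h.2.2.2.2.1 (sym _ _ e), fun e => h.2.2.2.1 (sym _ _ e)⟩

theorem P4.compl {A : V → V → Prop} (sym : ∀ x y, A x y → A y x) {a b c d : V} (h : P4 A a b c d) :
    P4 (co A) b d a c := by
  obtain ⟨h1, h2, h3, h4, h5, h6⟩ := h
  refine ⟨h6, fun e => h5 (sym _ _ e), h4, fun e => e (sym _ _ h1), fun e => e h2,
    fun e => e (sym _ _ h3)⟩

theorem co_sym {A : V → V → Prop} (sym : ∀ x y, A x y → A y x) : ∀ x y, co A x y → co A y x :=
  fun _ _ h e => h (sym _ _ e)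

/-- a vertex above `y` -/
theorem up {A : V → V → Prop} (sym : ∀ x y, A x y → A y x) {D : Finset V} (pr : Pr A D) {y : V}
    (hy : y ∈ D)
    (hr : ¬ A y y → ∃ r ∈ D, A y r ∧ ((∀ x ∈ D, A y x → A r x) ∨ (∀ x ∈ D, A y x → ¬ A r x))) :
    ∃ p ∈ D, A y p ∧ ∀ x ∈ D, A y x → A p x := by
  by_cases hyy : A y y
  · exact ⟨y, hy, hyy, fun _ _ h => h⟩
  obtain ⟨r, hr, hyr, h1 | h1⟩ := hr hyy
  · exact ⟨r, hr, hyr, h1⟩
  exfalso
  have hrr : ¬ A r r := h1 r hr hyr
  obtain ⟨g, hg, m1, m2, m3, m4⟩ := pr y hy r hr ⟨fun h => absurd h hyy, fun h => absurd h hrr⟩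
    ⟨fun _ => hyy, fun _ => hyr⟩
  exact h1 g hg (sym _ _ (m2.2 hyy)) (sym _ _ (m3.2 hyy))

/-- **Lemma R**: a nonempty set without induced four-paths in which every closed pair has a midpoint
has a vertex that is constant on it -/
theorem lemR {A : V → V → Prop} (sym : ∀ x y, A x y → A y x) : ∀ n : ℕ, ∀ D : Finset V, D.card = n →
    D.Nonempty → Pr A D → (∀ a ∈ D, ∀ b ∈ D, ∀ c ∈ D, ∀ d ∈ D, ¬ P4 A a b c d) →
    ∃ r ∈ D, (∀ x ∈ D, A r x) ∨ (∀ x ∈ D, ¬ A r x) := by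
  intro n
  induction n using Nat.strong_induction_on with
  | _ n ih =>
  intro D hD hne pr free
  by_contra hno
  push Not at hno
  have hup : ∀ y ∈ D, ∃ p ∈ D, A y p ∧ ∀ x ∈ D, A y x → A p x := by
    intro y hy
    refine up sym pr hy fun _ => ?_
    obtain ⟨⟨s, hs, hys⟩, ⟨t, ht, hyt⟩⟩ := hno y hy
    have hlt : (D.filter fun x => A x y).card < n := by
      rw [← hD]
      refine Finset.card_lt_card ⟨Finset.filter_subset _ _, fun hsub => ?_⟩
      have := hsub hs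
      rw [Finset.mem_filter] at this
      exact hys (sym _ _ this.2)
    obtain ⟨r, hr, h⟩ := ih _ hlt _ rfl ⟨t, by
      rw [Finset.mem_filter]
      exact ⟨ht, sym _ _ hyt⟩⟩ (pr.filt y) (by
      intro a ha b hb c hc d hd
      exact free a (Finset.mem_filter.1 ha).1 b (Finset.mem_filter.1 hb).1 c
        (Finset.mem_filter.1 hc).1 d (Finset.mem_filter.1 hd).1)
    rw [Finset.mem_filter] at hr
    refine ⟨r, hr.1, sym _ _ hr.2, ?_⟩
    rcases h with h | h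
    · exact Or.inl fun x hx hyx => h x (Finset.mem_filter.2 ⟨hx, sym _ _ hyx⟩)
    · exact Or.inr fun x hx hyx => h x (Finset.mem_filter.2 ⟨hx, sym _ _ hyx⟩)
  have hdown : ∀ y ∈ D, ∃ p ∈ D, ¬ A y p ∧ ∀ x ∈ D, ¬ A y x → ¬ A p x := by
    intro y hy
    refine up (A := co A) (co_sym sym) pr.compl hy fun _ => ?_
    obtain ⟨⟨s, hs, hys⟩, ⟨t, ht, hyt⟩⟩ := hno y hy
    have hlt : (D.filter fun x => ¬ A x y).card < n := by
      rw [← hD]
      refine Finset.card_lt_card ⟨Finset.filter_subset _ _, fun hsub => ?_⟩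
      have := hsub ht
      rw [Finset.mem_filter] at this
      exact this.2 (sym _ _ hyt)
    obtain ⟨r, hr, h⟩ := ih _ hlt _ rfl ⟨s, by
      rw [Finset.mem_filter]
      exact ⟨hs, fun e => hys (sym _ _ e)⟩⟩ (pr.filtn y) (by
      intro a ha b hb c hc d hd
      exact free a (Finset.mem_filter.1 ha).1 b (Finset.mem_filter.1 hb).1 c
        (Finset.mem_filter.1 hc).1 d (Finset.mem_filter.1 hd).1)
    rw [Finset.mem_filter] at hr
    refine ⟨r, hr.1, fun e => hr.2 (sym _ _ e), ?_⟩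
    rcases h with h | h
    · refine Or.inr fun x hx hyx => ?_
      simp only [co, not_not]
      exact h x (Finset.mem_filter.2 ⟨hx, fun e => hyx (sym _ _ e)⟩)
    · exact Or.inl fun x hx hyx => h x (Finset.mem_filter.2 ⟨hx, fun e => hyx (sym _ _ e)⟩)
  have hS : (D.filter fun b => A b b).Nonempty := by
    obtain ⟨y, hy⟩ := hne
    obtain ⟨p, hp, hyp, h⟩ := hup y hy
    exact ⟨p, Finset.mem_filter.2 ⟨hp, h p hp hyp⟩⟩
  obtain ⟨b, hb, hmax⟩ := Finset.exists_max_image (D.filter fun b => A b b)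
    (fun b => (D.filter fun x => A b x).card) hS
  rw [Finset.mem_filter] at hb
  obtain ⟨d, hd, hbd, hdb⟩ := hdown b hb.1
  obtain ⟨c, hc, hdc, hcd⟩ := hup d hd
  have hcc : A c c := hcd c hc hdc
  have hnot : ¬ ∀ x ∈ D, A b x → A c x := by
    intro hsub
    have h1 := hmax c (Finset.mem_filter.2 ⟨hc, hcc⟩)
    refine absurd h1 (not_le.2 (Finset.card_lt_card ⟨?_, fun hs => ?_⟩))
    · intro x hx
      rw [Finset.mem_filter] at hx ⊢
      exact ⟨hx.1, hsub x hx.1 hx.2⟩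
    · have := hs (Finset.mem_filter.2 ⟨hd, sym _ _ hdc⟩)
      rw [Finset.mem_filter] at this
      exact hbd this.2
  push Not at hnot
  obtain ⟨a, ha, hba, hca⟩ := hnot
  refine free a ha b hb.1 c hc d hd ⟨sym _ _ hba, ?_, sym _ _ hdc, fun e => hca (sym _ _ e), ?_, hbd⟩
  · by_contra hbc
    exact hdb c hc hbc hdc
  · intro had
    exact hca (hcd a ha (sym _ _ had))

/-- a minimal cell -/
structure MC (A : V → V → Prop) (X : Finset V) : Prop where
  sym : ∀ x y, A x y → A y x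
  pr : Pr A X
  zero : ∀ a ∈ X, ∀ b ∈ X, ∀ c ∈ X, ∀ d ∈ X, P4 A a b c d → ∀ y, ¬ A y a → ¬ A y b → ¬ A y c →
    ¬ A y d → ∀ x ∈ X, ¬ A y x
  one : ∀ a ∈ X, ∀ b ∈ X, ∀ c ∈ X, ∀ d ∈ X, P4 A a b c d → ∀ y, A y a → A y b → A y c →
    A y d → ∀ x ∈ X, A y x

theorem MC.compl {A : V → V → Prop} {X : Finset V} (h : MC A X) : MC (co A) X where
  sym := co_sym h.sym
  pr := h.pr.compl
  zero := by
    intro a ha b hb c hc d hd hp y h1 h2 h3 h4 x hx e
    have hp' := hp.compl (co_sym h.sym)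
    rw [co_co] at hp'
    simp only [co, not_not] at h1 h2 h3 h4
    exact e (h.one b hb d hd a ha c hc hp' y h2 h4 h1 h3 x hx)
  one := by
    intro a ha b hb c hc d hd hp y h1 h2 h3 h4 x hx
    have hp' := hp.compl (co_sym h.sym)
    rw [co_co] at hp'
    exact h.zero b hb d hd a ha c hc hp' y h2 h4 h1 h3 x hx

theorem MC.up {A : V → V → Prop} {X : Finset V} (h : MC A X) {y t : V} (hy : y ∈ X) (ht : t ∈ X)
    (hyt : A y t) : ∃ p ∈ X, A y p ∧ ∀ x ∈ X, A y x → A p x := by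
  refine P3.up h.sym h.pr hy fun hyy => ?_
  obtain ⟨r, hr, hh⟩ := lemR h.sym _ (X.filter fun x => A x y) rfl
    ⟨t, Finset.mem_filter.2 ⟨ht, h.sym _ _ hyt⟩⟩ (h.pr.filt y) (by
    intro a ha b hb c hc d hd hp
    rw [Finset.mem_filter] at ha hb hc hd
    exact hyy (h.one a ha.1 b hb.1 c hc.1 d hd.1 hp y (h.sym _ _ ha.2) (h.sym _ _ hb.2)
      (h.sym _ _ hc.2) (h.sym _ _ hd.2) y hy))
  rw [Finset.mem_filter] at hr
  refine ⟨r, hr.1, h.sym _ _ hr.2, ?_⟩
  rcases hh with hh | hh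
  · exact Or.inl fun x hx hyx => hh x (Finset.mem_filter.2 ⟨hx, h.sym _ _ hyx⟩)
  · exact Or.inr fun x hx hyx => hh x (Finset.mem_filter.2 ⟨hx, h.sym _ _ hyx⟩)

theorem MC.down {A : V → V → Prop} {X : Finset V} (h : MC A X) {y t : V} (hy : y ∈ X) (ht : t ∈ X)
    (hyt : ¬ A y t) : ∃ p ∈ X, ¬ A y p ∧ ∀ x ∈ X, ¬ A y x → ¬ A p x :=
  h.compl.up hy ht hyt

/-- the end class of a path has a constant vertex -/
theorem MC.root_end {A : V → V → Prop} {X : Finset V} (h : MC A X) {a b c d : V}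
    (hb : b ∈ X) (hd : d ∈ X) (hp : P4 A a b c d) :
    ∃ r ∈ X, A r c ∧ ¬ A r a ∧ ¬ A r b ∧
      ((∀ x ∈ X, A x c → ¬ A x a → ¬ A x b → A r x) ∨
        (∀ x ∈ X, A x c → ¬ A x a → ¬ A x b → ¬ A r x)) := by
  obtain ⟨h1, h2, h3, h4, h5, h6⟩ := hp
  obtain ⟨r, hr, hh⟩ := lemR h.sym _
    (((X.filter fun x => A x c).filter fun x => ¬ A x a).filter fun x => ¬ A x b) rfl
    ⟨d, by
      simp only [Finset.mem_filter]
      exact ⟨⟨⟨hd, h.sym _ _ h3⟩, fun e => h5 (h.sym _ _ e)⟩, fun e => h6 (h.sym _ _ e)⟩⟩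
    (((h.pr.filt c).filtn a).filtn b) (by
    intro p hp q hq s hs t ht hP
    simp only [Finset.mem_filter] at hp hq hs ht
    exact h.zero p hp.1.1.1 q hq.1.1.1 s hs.1.1.1 t ht.1.1.1 hP a (fun e => hp.1.2 (h.sym _ _ e))
      (fun e => hq.1.2 (h.sym _ _ e)) (fun e => hs.1.2 (h.sym _ _ e))
      (fun e => ht.1.2 (h.sym _ _ e)) b hb h1)
  simp only [Finset.mem_filter] at hr hh
  refine ⟨r, hr.1.1.1, hr.1.1.2, hr.1.2, hr.2, ?_⟩
  rcases hh with hh | hh
  · exact Or.inl fun x hx e1 e2 e3 => hh x ⟨⟨⟨hx, e1⟩, e2⟩, e3⟩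
  · exact Or.inr fun x hx e1 e2 e3 => hh x ⟨⟨⟨hx, e1⟩, e2⟩, e3⟩

/-- the class of the third point of a path has a constant vertex -/
theorem MC.root_mid {A : V → V → Prop} {X : Finset V} (h : MC A X) {a b c d : V}
    (hc : c ∈ X) (hd : d ∈ X) (hp : P4 A a b c d) :
    ∃ r ∈ X, ¬ A r a ∧ A r b ∧ A r d ∧
      ((∀ x ∈ X, ¬ A x a → A x b → A x d → ¬ A r x) ∨
        (∀ x ∈ X, ¬ A x a → A x b → A x d → A r x)) := by
  obtain ⟨r, hr, r1, r2, r3, r4⟩ := h.compl.root_end (a := b) (b := d) (c := a) (d := c) hd hc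
    (hp.compl h.sym)
  simp only [co, not_not] at r1 r2 r3 r4
  exact ⟨r, hr, r1, r2, r3, r4⟩

/-- (i): no point of the end class of a path sees the whole class -/
theorem MC.i_end {A : V → V → Prop} {X : Finset V} (h : MC A X) {a b c d : V} (ha : a ∈ X)
    (hb : b ∈ X) (hc : c ∈ X) (hd : d ∈ X) (hp : P4 A a b c d)
    (hall : ∀ x ∈ X, A x c → ¬ A x a → ¬ A x b → A d x) : False := by
  have hsym := h.sym
  obtain ⟨h1, h2, h3, h4, h5, h6⟩ := id hp
  have hdd : A d d := hall d hd (hsym _ _ h3) (fun e => h5 (hsym _ _ e)) (fun e => h6 (hsym _ _ e))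
  by_cases hz : ∃ o ∈ X, ∀ x ∈ X, ¬ A o x
  · obtain ⟨o, ho, hoz⟩ := hz
    have hno : ∀ y ∈ X, (∀ x ∈ X, A y x) → False := fun y hy hyx => hoz y hy (hsym _ _ (hyx o ho))
    obtain ⟨r, hr, r1, r2, r3, r4⟩ := h.root_mid (a := d) (b := c) (c := b) (d := a) hb ha
      (hp.rev hsym)
    rcases r4 with r4 | r4
    · obtain ⟨p, hpX, hrp, hpr⟩ := h.up hr ha r3
      have e1 : A p a := hpr a ha r3
      have e2 : A p c := hpr c hc r2
      by_cases e3 : A p d
      · exact hno p hpX (h.one a ha r hr c hc d hd ⟨hsym _ _ r3, r2, h3, h4, h5, r1⟩ p e1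
          (hsym _ _ hrp) e2 e3)
      · exact r4 p hpX e3 e2 e1 hrp
    · have hrr : A r r := r4 r hr r1 r2 r3
      obtain ⟨g, hg, m1, m2, m3, m4⟩ := h.pr r hr d hd ⟨fun _ => hdd, fun _ => hrr⟩
        ⟨fun e => absurd e r1, fun e => absurd hrr e⟩
      have f2 : ¬ A g r := fun e => (m2.1 e) hrr
      have f3 : ¬ A g d := fun e => (m3.1 e) hrr
      have f4 : A g c := (m4 c ⟨fun _ => hsym _ _ h3, fun _ => r2⟩).2 r2
      have f5 : ¬ A g a := fun e => f2 (hsym _ _ (r4 g hg f3 f4 e))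
      have f6 : A g b := by
        by_contra e
        exact f3 (hsym _ _ (hall g hg f4 f5 e))
      have f7 : A r b := r4 b hb h6 h2 (hsym _ _ h1)
      exact hno b hb (h.one a ha r hr c hc g hg
        ⟨hsym _ _ r3, r2, hsym _ _ f4, h4, fun e => f5 (hsym _ _ e), fun e => f2 (hsym _ _ e)⟩ b
        (hsym _ _ h1) (hsym _ _ f7) h2 (hsym _ _ f6))
  · push Not at hz
    obtain ⟨m, hm, hdm, hmd⟩ := h.down hd ha (fun e => h5 (hsym _ _ e))
    have e1 : ¬ A m a := hmd a ha (fun e => h5 (hsym _ _ e))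
    have e2 : ¬ A m b := hmd b hb (fun e => h6 (hsym _ _ e))
    have e4 : ¬ A m d := fun e => hdm (hsym _ _ e)
    have e3 : ¬ A m c := fun e => hdm (hall m hm e e1 e2)
    obtain ⟨x, hx, hmx⟩ := hz m hm
    exact h.zero a ha b hb c hc d hd hp m e1 e2 e3 e4 x hx hmx

/-- (i) for the class of the third point -/
theorem MC.i_mid {A : V → V → Prop} {X : Finset V} (h : MC A X) {a b c d : V} (ha : a ∈ X)
    (hb : b ∈ X) (hc : c ∈ X) (hd : d ∈ X) (hp : P4 A a b c d)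
    (hall : ∀ x ∈ X, ¬ A x a → A x b → A x d → ¬ A c x) : False := by
  refine h.compl.i_end hb hd ha hc (hp.compl h.sym) fun x hx e1 e2 e3 => ?_
  simp only [co, not_not] at e1 e2 e3 ⊢
  exact hall x hx e1 e2 e3

/-- (ii): the row of the root of the end class is contained in the row of every point of it -/
theorem MC.ii_end {A : V → V → Prop} {X : Finset V} (h : MC A X) {a b c d r : V} (ha : a ∈ X)
    (hb : b ∈ X) (hc : c ∈ X) (hd : d ∈ X) (hr : r ∈ X) (hp : P4 A a b c d) (hrc : A r c)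
    (hra : ¬ A r a) (hrb : ¬ A r b)
    (hnone : ∀ x ∈ X, A x c → ¬ A x a → ¬ A x b → ¬ A r x) : ∀ y ∈ X, A r y → A d y := by
  have hsym := h.sym
  obtain ⟨h1, h2, h3, h4, h5, h6⟩ := id hp
  intro y hy hry
  by_contra hdy
  have hrd : ¬ A r d := hnone d hd (hsym _ _ h3) (fun e => h5 (hsym _ _ e))
    (fun e => h6 (hsym _ _ e))
  have nda : ¬ A d a := fun e => h5 (hsym _ _ e)
  have ndb : ¬ A d b := fun e => h6 (hsym _ _ e)
  have ndr : ¬ A d r := fun e => hrd (hsym _ _ e)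
  have nar : ¬ A a r := fun e => hra (hsym _ _ e)
  have nbr : ¬ A b r := fun e => hrb (hsym _ _ e)
  by_cases ya : A y a
  · by_cases yb : A y b
    · by_cases yc : A y c
      · exact hdy (hsym _ _ (h.one a ha b hb c hc r hr ⟨h1, h2, hsym _ _ hrc, h4, nar, nbr⟩ y ya yb
          yc (hsym _ _ hry) d hd))
      · obtain ⟨q, hq, q1, q2, q3, q4⟩ := h.root_mid (a := d) (b := c) (c := r) (d := y) hr hy
          ⟨hsym _ _ h3, hsym _ _ hrc, hry, ndr, hdy, fun e => yc (hsym _ _ e)⟩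
        rcases q4 with q4 | q4
        · exact h.i_mid hd hc hq hy ⟨hsym _ _ h3, hsym _ _ q2, q3, fun e => q1 (hsym _ _ e), hdy,
            fun e => yc (hsym _ _ e)⟩ q4
        · have qr : A q r := q4 r hr hrd hrc hry
          have qb : A q b := q4 b hb h6 h2 (hsym _ _ yb)
          have qa : ¬ A q a := fun e => q1 (h.one a ha b hb c hc r hr
            ⟨h1, h2, hsym _ _ hrc, h4, nar, nbr⟩ q e qb q2 qr d hd)
          exact yc (h.one a ha b hb q hq r hr
            ⟨h1, hsym _ _ qb, qr, fun e => qa (hsym _ _ e), nar, nbr⟩ y ya yb (hsym _ _ q3)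
            (hsym _ _ hry) c hc)
    · exact h.zero b hb a ha y hy r hr ⟨hsym _ _ h1, hsym _ _ ya, hsym _ _ hry,
        fun e => yb (hsym _ _ e), nbr, nar⟩ d ndb nda hdy ndr c hc (hsym _ _ h3)
  · by_cases yb : A y b
    · exact h.zero a ha b hb y hy r hr ⟨h1, hsym _ _ yb, hsym _ _ hry,
        fun e => ya (hsym _ _ e), nar, nbr⟩ d nda ndb hdy ndr c hc (hsym _ _ h3)
    · by_cases yc : A y c
      · exact hnone y hy yc ya yb hry
      · exact h.zero a ha b hb c hc d hd hp y ya yb yc (fun e => hdy (hsym _ _ e)) r hr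
          (hsym _ _ hry)

/-- the degree inside `X` -/
noncomputable def deg (A : V → V → Prop) (X : Finset V) (x : V) : ℕ := (X.filter fun y => A x y).card

/-- if the last point of a path has minimal degree then it sees nothing of its class -/
theorem MC.min_end {A : V → V → Prop} {X : Finset V} (h : MC A X) {a b c d : V} (ha : a ∈ X)
    (hb : b ∈ X) (hc : c ∈ X) (hd : d ∈ X) (hp : P4 A a b c d)
    (hmin : ∀ d' ∈ X, P4 A a b c d' → deg A X d ≤ deg A X d') :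
    ∀ x ∈ X, A x c → ¬ A x a → ¬ A x b → ¬ A d x := by
  obtain ⟨r, hr, r1, r2, r3, r4⟩ := h.root_end hb hd hp
  have hpr : P4 A a b c r := ⟨hp.1, hp.2.1, h.sym _ _ r1, hp.2.2.2.1, fun e => r2 (h.sym _ _ e),
    fun e => r3 (h.sym _ _ e)⟩
  rcases r4 with r4 | r4
  · exact (h.i_end ha hb hc hr hpr r4).elim
  · have hsub := h.ii_end ha hb hc hd hr hp r1 r2 r3 r4
    have hss : (X.filter fun y => A r y) ⊆ X.filter fun y => A d y := by
      intro y hy
      rw [Finset.mem_filter] at hy ⊢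
      exact ⟨hy.1, hsub y hy.1 hy.2⟩
    have heq := Finset.eq_of_subset_of_card_le hss (hmin r hr hpr)
    intro x hx e1 e2 e3 e4
    have : x ∈ X.filter fun y => A r y := by
      rw [heq, Finset.mem_filter]
      exact ⟨hx, e4⟩
    exact r4 x hx e1 e2 e3 (Finset.mem_filter.1 this).2

/-- if the third point of a path has maximal degree then it sees all of its class -/
theorem MC.min_mid {A : V → V → Prop} {X : Finset V} (h : MC A X) {a b c d : V} (ha : a ∈ X)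
    (hb : b ∈ X) (hc : c ∈ X) (hd : d ∈ X) (hp : P4 A a b c d)
    (hmin : ∀ c' ∈ X, P4 A a b c' d → deg (co A) X c ≤ deg (co A) X c') :
    ∀ x ∈ X, ¬ A x a → A x b → A x d → A c x := by
  have h1 := h.compl.min_end hb hd ha hc (hp.compl h.sym) (by
    intro c' hc' hp'
    refine hmin c' hc' ?_
    have := (hp'.compl (co_sym h.sym)).rev (by rw [co_co]; exact h.sym)
    rw [co_co] at this
    exact this)
  intro x hx e1 e2 e3
  have := h1 x hx e1 (fun e => e e2) (fun e => e e3)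
  simpa only [co, not_not] using this

/-- a minimal cell with a path contains a path without a bad point in the cell -/
theorem MC.good {A : V → V → Prop} {X : Finset V} (h : MC A X)
    (hex : ∃ a ∈ X, ∃ b ∈ X, ∃ c ∈ X, ∃ d ∈ X, P4 A a b c d) :
    ∃ a ∈ X, ∃ b ∈ X, ∃ c ∈ X, ∃ d ∈ X, P4 A a b c d ∧
      (∀ x ∈ X, A x c → ¬ A x a → ¬ A x b → ¬ A d x) ∧
      (∀ x ∈ X, A x b → ¬ A x d → ¬ A x c → ¬ A a x) ∧
      (∀ x ∈ X, ¬ A x a → A x b → A x d → A c x) ∧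
      (∀ x ∈ X, ¬ A x d → A x c → A x a → A b x) := by
  obtain ⟨a, ha, b, hb, c, hc, d, hd, hp⟩ := hex
  let S : Finset (V × V × V × V) := (X ×ˢ X ×ˢ X ×ˢ X).filter fun q => P4 A q.1 q.2.1 q.2.2.1 q.2.2.2
  have hS : S.Nonempty := ⟨(a, b, c, d), by
    simp only [S, Finset.mem_filter, Finset.mem_product]
    exact ⟨⟨ha, hb, hc, hd⟩, hp⟩⟩
  obtain ⟨⟨a, b, c, d⟩, hq, hmin⟩ := Finset.exists_min_image S
    (fun q => deg A X q.1 + deg A X q.2.2.2 + deg (co A) X q.2.1 + deg (co A) X q.2.2.1) hS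
  simp only [S, Finset.mem_filter, Finset.mem_product] at hq hmin
  obtain ⟨⟨ha, hb, hc, hd⟩, hp⟩ := hq
  refine ⟨a, ha, b, hb, c, hc, d, hd, hp, ?_, ?_, ?_, ?_⟩
  · refine h.min_end ha hb hc hd hp fun d' hd' hp' => ?_
    have := hmin (a, b, c, d') ⟨⟨ha, hb, hc, hd'⟩, hp'⟩
    simp only at this
    omega
  · refine h.min_end hd hc hb ha (hp.rev h.sym) fun a' ha' hp' => ?_
    have := hmin (a', b, c, d) ⟨⟨ha', hb, hc, hd⟩, hp'.rev h.sym⟩
    simp only at this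
    omega
  · refine h.min_mid ha hb hc hd hp fun c' hc' hp' => ?_
    have := hmin (a, b, c', d) ⟨⟨ha, hb, hc', hd⟩, hp'⟩
    simp only at this
    omega
  · refine h.min_mid hd hc hb ha (hp.rev h.sym) fun b' hb' hp' => ?_
    have := hmin (a, b', c, d) ⟨⟨ha, hb', hc, hd⟩, hp'.rev h.sym⟩
    simp only at this
    omega

/-- a cell: every `g` that agrees with `X` on the columns that are constant on `X` lies in `X` -/
def Cl (A : V → V → Prop) (X : Finset V) : Prop :=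
  ∀ g, (∀ y, (∀ x ∈ X, A x y) → A g y) → (∀ y, (∀ x ∈ X, ¬ A x y) → ¬ A g y) → g ∈ X

theorem Cl.filt {A : V → V → Prop} {X : Finset V} (h : Cl A X) (y : V) :
    Cl A (X.filter fun x => A x y) := by
  intro g h1 h2
  rw [Finset.mem_filter]
  refine ⟨h g (fun w hw => h1 w fun x hx => hw x (Finset.mem_filter.1 hx).1)
    (fun w hw => h2 w fun x hx => hw x (Finset.mem_filter.1 hx).1), ?_⟩
  exact h1 y fun x hx => (Finset.mem_filter.1 hx).2

theorem Cl.filtn {A : V → V → Prop} {X : Finset V} (h : Cl A X) (y : V) :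
    Cl A (X.filter fun x => ¬ A x y) := by
  intro g h1 h2
  rw [Finset.mem_filter]
  refine ⟨h g (fun w hw => h1 w fun x hx => hw x (Finset.mem_filter.1 hx).1)
    (fun w hw => h2 w fun x hx => hw x (Finset.mem_filter.1 hx).1), ?_⟩
  exact h2 y fun x hx => (Finset.mem_filter.1 hx).2

/-- `w` sees exactly one of `{a, b}`, `{a, c}`, `{b, d}`, `{c, d}` among `a, b, c, d` -/
def Bad (A : V → V → Prop) (a b c d w : V) : Prop :=
  (A w a ∧ A w b ∧ ¬ A w c ∧ ¬ A w d) ∨ (A w a ∧ ¬ A w b ∧ A w c ∧ ¬ A w d) ∨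
    (¬ A w a ∧ A w b ∧ ¬ A w c ∧ A w d) ∨ (¬ A w a ∧ ¬ A w b ∧ A w c ∧ A w d)

end

/-- **no induced path on four points** -/
theorem noP4 {V : Type} [Fintype V] (A : V → V → Prop) (sym : ∀ x y, A x y → A y x)
    (pairs : ∀ u v, (A u u ↔ A v v) → (A u v ↔ ¬ A u u) → ∃ g, Mid A u v g)
    (quad : ∀ a b c d, P4 A a b c d → ¬ A a a → A b b → A c c → ¬ A d d → ∃ g, Bad A a b c d g ∧
      ∀ y, (A a y ↔ A b y) → (A b y ↔ A c y) → (A c y ↔ A d y) → (A g y ↔ A a y)) :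
    ∀ a b c d, ¬ P4 A a b c d := by
  intro a b c d hp
  let S : Finset (Finset V) := Finset.univ.filter fun X =>
    Cl A X ∧ ∃ a ∈ X, ∃ b ∈ X, ∃ c ∈ X, ∃ d ∈ X, P4 A a b c d
  have hS : S.Nonempty := ⟨Finset.univ, by
    simp only [S, Finset.mem_filter]
    exact ⟨Finset.mem_univ _, fun g _ _ => Finset.mem_univ g, a, Finset.mem_univ _, b,
      Finset.mem_univ _, c, Finset.mem_univ _, d, Finset.mem_univ _, hp⟩⟩
  obtain ⟨X, hX, hmin⟩ := Finset.exists_min_image S (fun X => X.card) hS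
  simp only [S, Finset.mem_filter, Finset.mem_univ, true_and] at hX hmin
  obtain ⟨hcl, hex⟩ := hX
  have hMC : MC A X := by
    refine ⟨sym, ?_, ?_, ?_⟩
    · intro u hu v hv h1 h2
      obtain ⟨g, hg⟩ := pairs u v h1 h2
      refine ⟨g, hcl g (fun y hy => ?_) (fun y hy => ?_), hg⟩
      · exact (hg.2.2.2 y ⟨fun _ => hy v hv, fun _ => hy u hu⟩).2 (hy u hu)
      · exact fun e => hy u hu ((hg.2.2.2 y ⟨fun e => absurd e (hy u hu),
          fun e => absurd e (hy v hv)⟩).1 e)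
    · intro a ha b hb c hc d hd hp y h1 h2 h3 h4 x hx
      have hm : ∀ t ∈ X, ¬ A y t → t ∈ X.filter fun x => ¬ A x y := fun t ht hyt =>
        Finset.mem_filter.2 ⟨ht, fun e => hyt (sym _ _ e)⟩
      have hle := hmin (X.filter fun x => ¬ A x y) ⟨hcl.filtn y, a, hm a ha h1, b, hm b hb h2, c,
        hm c hc h3, d, hm d hd h4, hp⟩
      have heq := Finset.eq_of_subset_of_card_le (Finset.filter_subset _ _) hle
      rw [← heq] at hx
      exact fun e => (Finset.mem_filter.1 hx).2 (sym _ _ e)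
    · intro a ha b hb c hc d hd hp y h1 h2 h3 h4 x hx
      have hm : ∀ t ∈ X, A y t → t ∈ X.filter fun x => A x y := fun t ht hyt =>
        Finset.mem_filter.2 ⟨ht, sym _ _ hyt⟩
      have hle := hmin (X.filter fun x => A x y) ⟨hcl.filt y, a, hm a ha h1, b, hm b hb h2, c,
        hm c hc h3, d, hm d hd h4, hp⟩
      have heq := Finset.eq_of_subset_of_card_le (Finset.filter_subset _ _) hle
      rw [← heq] at hx
      exact sym _ _ (Finset.mem_filter.1 hx).2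
  obtain ⟨a, ha, b, hb, c, hc, d, hd, hp, g1, g2, g3, g4⟩ := hMC.good hex
  obtain ⟨p1, p2, p3, p4, p5, p6⟩ := id hp
  have s1 : ¬ A c a := fun e => p4 (sym _ _ e)
  have s2 : ¬ A d a := fun e => p5 (sym _ _ e)
  have s3 : ¬ A d b := fun e => p6 (sym _ _ e)
  obtain ⟨g, hbad, hg⟩ := quad a b c d hp (g2 a ha p1 p5 p4) (g4 b hb p6 p2 (sym _ _ p1))
    (g3 c hc s1 (sym _ _ p2) p3) (g1 d hd (sym _ _ p3) s2 s3)
  have hgX : g ∈ X := by
    refine hcl g (fun y hy => ?_) (fun y hy => ?_)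
    · exact (hg y ⟨fun _ => hy b hb, fun _ => hy a ha⟩ ⟨fun _ => hy c hc, fun _ => hy b hb⟩
        ⟨fun _ => hy d hd, fun _ => hy c hc⟩).2 (hy a ha)
    · exact fun e => hy a ha ((hg y ⟨fun e => absurd e (hy a ha), fun e => absurd e (hy b hb)⟩
        ⟨fun e => absurd e (hy b hb), fun e => absurd e (hy c hc)⟩
        ⟨fun e => absurd e (hy c hc), fun e => absurd e (hy d hd)⟩).1 e)
  rcases hbad with ⟨w1, w2, w3, w4⟩ | ⟨w1, w2, w3, w4⟩ | ⟨w1, w2, w3, w4⟩ | ⟨w1, w2, w3, w4⟩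
  · exact g2 g hgX w2 w4 w3 (sym _ _ w1)
  · exact w2 (sym _ _ (g4 g hgX w4 w3 w1))
  · exact w3 (sym _ _ (g3 g hgX w1 w2 w4))
  · exact g1 g hgX w3 w1 w2 (sym _ _ w4)

theorem z2_iff (s t : ZMod 2) : (s = 1 ↔ t = 1) ↔ s = t := by
  revert s t
  decide

theorem z2_ne (s t : ZMod 2) : (s = 1 ↔ ¬ t = 1) ↔ s ≠ t := by
  revert s t
  decide

theorem z2_zero (s : ZMod 2) : s ≠ 1 ↔ s = 0 := by
  revert s
  decide

/-- **no induced path on four points**, for a symmetric matrix over `ZMod 2` -/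
theorem noP4Z {V : Type} [Fintype V] (M : V → V → ZMod 2) (sym : ∀ x y, M x y = M y x)
    (pairs : ∀ u v, M u u = M v v → M u v ≠ M u u → ∃ g, M g g ≠ M u u ∧ M g u = M g g ∧
      M g v = M g g ∧ ∀ x, M u x = M v x → M g x = M u x)
    (quad : ∀ a b c d, M a a = 0 → M b b = 1 → M c c = 1 → M d d = 0 → M a b = 1 → M b c = 1 →
      M c d = 1 → M a c = 0 → M a d = 0 → M b d = 0 →
      ∃ g, ((M g a = 1 ∧ M g b = 1 ∧ M g c = 0 ∧ M g d = 0) ∨
          (M g a = 1 ∧ M g b = 0 ∧ M g c = 1 ∧ M g d = 0) ∨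
          (M g a = 0 ∧ M g b = 1 ∧ M g c = 0 ∧ M g d = 1) ∨
          (M g a = 0 ∧ M g b = 0 ∧ M g c = 1 ∧ M g d = 1)) ∧
        ∀ y, M a y = M b y → M b y = M c y → M c y = M d y → M g y = M a y) :
    ∀ a b c d, M a b = 1 → M b c = 1 → M c d = 1 → M a c = 0 → M a d = 0 → M b d = 0 → False := by
  intro a b c d h1 h2 h3 h4 h5 h6
  refine noP4 (fun x y => M x y = 1) (fun x y h => by rw [sym]; exact h) ?_ ?_ a b c d
    ⟨h1, h2, h3, (z2_zero _).2 h4, (z2_zero _).2 h5, (z2_zero _).2 h6⟩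
  · intro u v e1 e2
    have e1' := (z2_iff _ _).1 e1
    have e2' := (z2_ne _ _).1 e2
    obtain ⟨g, g1, g2, g3, g4⟩ := pairs u v e1' e2'
    refine ⟨g, (z2_ne _ _).2 g1, (z2_ne _ _).2 (by rw [g2]; exact g1),
      (z2_ne _ _).2 (by rw [g3]; exact g1), fun y hy => (z2_iff _ _).2 (g4 y ((z2_iff _ _).1 hy))⟩
  · intro a b c d hp la lb lc ld
    obtain ⟨p1, p2, p3, p4, p5, p6⟩ := hp
    obtain ⟨g, hg1, hg2⟩ := quad a b c d ((z2_zero _).1 la) lb lc ((z2_zero _).1 ld) p1 p2 p3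
      ((z2_zero _).1 p4) ((z2_zero _).1 p5) ((z2_zero _).1 p6)
    refine ⟨g, ?_, fun y y1 y2 y3 => (z2_iff _ _).2
      (hg2 y ((z2_iff _ _).1 y1) ((z2_iff _ _).1 y2) ((z2_iff _ _).1 y3))⟩
    have e : ∀ s : ZMod 2, s = 0 → ¬ s = 1 := fun s hs => (z2_zero s).2 hs
    rcases hg1 with ⟨w1, w2, w3, w4⟩ | ⟨w1, w2, w3, w4⟩ | ⟨w1, w2, w3, w4⟩ | ⟨w1, w2, w3, w4⟩
    · exact Or.inl ⟨w1, w2, e _ w3, e _ w4⟩
    · exact Or.inr (Or.inl ⟨w1, e _ w2, w3, e _ w4⟩)
    · exact Or.inr (Or.inr (Or.inl ⟨e _ w1, w2, e _ w3, w4⟩))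
    · exact Or.inr (Or.inr (Or.inr ⟨e _ w1, e _ w2, w3, w4⟩))

end Pool.Agent.H32.P3
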